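import Pool.Agent.helper27.TD.Spec

set_option autoImplicit false

namespace Pool.Agent.helper27.TD

private lemma EXK_red (Z X q q' : ℕ) (hZ : 5 ≤ Z) (hq : q.Prime) (hq' : q'.Prime) (hne : q ≠ q')
    (hZq : Z < q) (hq'4 : q' ≤ 4 * Z) (D u v k : ℤ) (hD : |D| ≤ 2 * X)
    (h : u ^ 2 - (q : ℤ) * q' * v ^ 2 = D * k ^ 2) (hv : v ≠ 0) (hk : k ≠ 0) (hqk : (q : ℤ) ∣ k)
    (hk2 : k ^ 2 ≤ 25 * ((q : ℤ) * q')) (hu2 : u ^ 2 ≤ 25 * ((q : ℤ) * q') * |D|)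
    (hv2 : v ^ 2 ≤ 4 * |D|) :
    ∃ u' v' k' : ℤ, u' ^ 2 - (q : ℤ) * q' * v' ^ 2 = D * k' ^ 2 ∧ v' ≠ 0 ∧ k' ≠ 0 ∧
      k' ^ 2 ≤ 99 ∧ u' ^ 2 ≤ 200 * X ∧ v' ^ 2 * Z ^ 2 ≤ 8 * X := by
  have hqZ : Prime (q : ℤ) := Nat.prime_iff_prime_int.1 hq
  have hq'Z : Prime (q' : ℤ) := Nat.prime_iff_prime_int.1 hq'
  have hq0 : (0 : ℤ) < q := by exact_mod_cast hq.pos
  have hq'0 : (0 : ℤ) < q' := by exact_mod_cast hq'.pos
  obtain ⟨k', rfl⟩ := hqk
  have h1 : (q : ℤ) ∣ u ^ 2 := ⟨q' * v ^ 2 + D * (q * k' ^ 2), by linear_combination h⟩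
  obtain ⟨u', rfl⟩ := hqZ.dvd_of_dvd_pow h1
  have h2 : (q : ℤ) * ((q : ℤ) * u' ^ 2 - D * q * k' ^ 2) = q * (q' * v ^ 2) := by linear_combination h
  have h3 := mul_left_cancel₀ hq0.ne' h2
  have h4 : (q : ℤ) ∣ q' * v ^ 2 := ⟨u' ^ 2 - D * k' ^ 2, by linear_combination -h3⟩
  have h5 : (q : ℤ) ∣ v := by
    rcases hqZ.dvd_or_dvd h4 with h6 | h6
    · exfalso
      apply hne
      have h7 : q ∣ q' := by exact_mod_cast h6
      exact (Nat.prime_dvd_prime_iff_eq hq hq').1 h7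
    · exact hqZ.dvd_of_dvd_pow h6
  obtain ⟨v', rfl⟩ := h5
  have hq2 : (0 : ℤ) < (q : ℤ) ^ 2 := by positivity
  have hZq' : (Z : ℤ) < q := by exact_mod_cast hZq
  have hq'Z4 : (q' : ℤ) ≤ 4 * Z := by exact_mod_cast hq'4
  have hq'q : (q' : ℤ) < 4 * q := by linarith
  have hZ0 : (0 : ℤ) < Z := by
    have : 0 < Z := by omega
    exact_mod_cast this
  refine ⟨u', v', k', ?_, ?_, ?_, ?_, ?_, ?_⟩
  · apply mul_left_cancel₀ hq2.ne'
    linear_combination h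
  · rintro rfl
    simp at hv
  · rintro rfl
    simp at hk
  · -- q^2 k'^2 ≤ 25 q q' < 100 q^2
    have h6 : (q : ℤ) ^ 2 * k' ^ 2 < q ^ 2 * 100 := by
      calc (q : ℤ) ^ 2 * k' ^ 2 = (q * k') ^ 2 := by ring
        _ ≤ 25 * ((q : ℤ) * q') := hk2
        _ < 25 * ((q : ℤ) * (4 * q)) := by
            have := mul_lt_mul_of_pos_left hq'q hq0
            linarith
        _ = q ^ 2 * 100 := by ring
    have h7 := lt_of_mul_lt_mul_left h6 hq2.le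
    linarith
  · have hD0 : 0 ≤ |D| := abs_nonneg D
    have h6 : (q : ℤ) ^ 2 * u' ^ 2 ≤ q ^ 2 * (200 * X) := by
      calc (q : ℤ) ^ 2 * u' ^ 2 = (q * u') ^ 2 := by ring
        _ ≤ 25 * ((q : ℤ) * q') * |D| := hu2
        _ ≤ 25 * ((q : ℤ) * (4 * q)) * (2 * X) := by gcongr
        _ = q ^ 2 * (200 * X) := by ring
    exact le_of_mul_le_mul_left h6 hq2
  · have h6 : v' ^ 2 * (Z : ℤ) ^ 2 ≤ v' ^ 2 * (q : ℤ) ^ 2 := by gcongr
    calc v' ^ 2 * (Z : ℤ) ^ 2 ≤ v' ^ 2 * (q : ℤ) ^ 2 := h6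
      _ = (q * v') ^ 2 := by ring
      _ ≤ 4 * |D| := hv2
      _ ≤ 4 * (2 * X) := by gcongr
      _ = 8 * X := by ring

private lemma EXK_sqrt (x : ℤ) (n : ℕ) (h : x ^ 2 ≤ n) : |x| ≤ (Nat.sqrt n : ℤ) := by
  have h1 : x.natAbs ^ 2 ≤ n := by
    have h2 : ((x.natAbs ^ 2 : ℕ) : ℤ) = x ^ 2 := by
      push_cast
      exact sq_abs x
    have h3 : ((x.natAbs ^ 2 : ℕ) : ℤ) ≤ n := by
      rw [h2]
      exact h
    exact_mod_cast h3
  have h4 : x.natAbs ≤ Nat.sqrt n := Nat.le_sqrt'.2 h1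
  have h5 : ((x.natAbs : ℕ) : ℤ) ≤ (Nat.sqrt n : ℤ) := by exact_mod_cast h4
  rwa [Int.natCast_natAbs] at h5

theorem EXK : EXK_stmt := by
  refine ⟨4000, by norm_num, ?_⟩
  intro Z X q q' hZ hX hq hq' hne hZq hq4 hZq' hq'4 T hT
  obtain ⟨a, ha⟩ : ∃ a, a = Nat.sqrt (200 * X) := ⟨_, rfl⟩
  obtain ⟨c, hc⟩ : ∃ c, c = Nat.sqrt (8 * X) := ⟨_, rfl⟩
  obtain ⟨b, hb⟩ : ∃ b, b = c / Z := ⟨_, rfl⟩
  have hZ0 : 0 < Z := by omega
  have hsub : T ⊆ (((Finset.Icc (-(a : ℤ)) a) ×ˢ (((Finset.Icc (-(b : ℤ)) b).erase 0) ×ˢ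
      ((Finset.Icc (-9 : ℤ) 9).erase 0))).image
      (fun w : ℤ × ℤ × ℤ => (w.1 ^ 2 - (q : ℤ) * q' * w.2.1 ^ 2) / w.2.2 ^ 2)) := by
    intro D hD
    obtain ⟨hD1, u, v, k, h1, hv, hk, hqk, hk2, hu2, hv2⟩ := hT D hD
    obtain ⟨u', v', k', g1, g2, g3, g4, g5, g6⟩ := EXK_red Z X q q' hZ hq hq' hne hZq hq'4 D u v k
      hD1 h1 hv hk hqk hk2 hu2 hv2
    rw [Finset.mem_image]
    refine ⟨(u', v', k'), ?_, ?_⟩
    · rw [Finset.mem_product, Finset.mem_product, Finset.mem_erase, Finset.mem_erase, Finset.mem_Icc,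
        Finset.mem_Icc, Finset.mem_Icc]
      have e1 : |u'| ≤ (a : ℤ) := by
        rw [ha]
        apply EXK_sqrt
        push_cast
        exact g5
      have e2 : |v' * Z| ≤ (c : ℤ) := by
        rw [hc]
        apply EXK_sqrt
        push_cast
        rw [mul_pow]
        exact g6
      have e3 : |v'| ≤ (b : ℤ) := by
        rw [hb]
        push_cast
        rw [Int.le_ediv_iff_mul_le (by exact_mod_cast hZ0)]
        rw [abs_mul, abs_of_nonneg (by positivity : (0 : ℤ) ≤ (Z : ℤ))] at e2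
        exact e2
      have e4 : |k'| ≤ 9 := by
        have : |k'| ≤ (Nat.sqrt 99 : ℤ) := by
          apply EXK_sqrt
          exact_mod_cast g4
        have h9 : Nat.sqrt 99 = 9 := by
          symm
          rw [Nat.eq_sqrt]
          norm_num
        rw [h9] at this
        exact_mod_cast this
      exact ⟨abs_le.1 e1, ⟨g2, abs_le.1 e3⟩, ⟨g3, abs_le.1 e4⟩⟩
    · show (u' ^ 2 - (q : ℤ) * q' * v' ^ 2) / k' ^ 2 = D
      rw [g1]
      exact Int.mul_ediv_cancel _ (pow_ne_zero 2 g3)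
  have hcard := (Finset.card_le_card hsub).trans Finset.card_image_le
  rw [Finset.card_product, Finset.card_product] at hcard
  have c1 : (Finset.Icc (-(a : ℤ)) a).card = 2 * a + 1 := by
    rw [Int.card_Icc]
    omega
  have c2 : ((Finset.Icc (-(b : ℤ)) b).erase 0).card = 2 * b := by
    rw [Finset.card_erase_of_mem (by simp), Int.card_Icc]
    omega
  have c3 : ((Finset.Icc (-9 : ℤ) 9).erase 0).card = 18 := by decide
  rw [c1, c2, c3] at hcard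
  have hcardR : (T.card : ℝ) ≤ (2 * a + 1) * (2 * b * 18) := by exact_mod_cast hcard
  obtain ⟨s, hs⟩ : ∃ s : ℝ, s = Real.sqrt X := ⟨_, rfl⟩
  have hXr : (1 : ℝ) ≤ X := by exact_mod_cast hX
  have hs2 : s ^ 2 = X := by
    rw [hs]
    exact Real.sq_sqrt (by linarith)
  have hs1 : 1 ≤ s := by
    rw [hs]
    exact Real.one_le_sqrt.2 hXr
  have hZr : (0 : ℝ) < Z := by exact_mod_cast hZ0
  have ha2 : (a : ℝ) ≤ 15 * s := by
    have h1 : a ^ 2 ≤ 200 * X := by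
      rw [ha]
      exact Nat.sqrt_le' _
    have h2 : (a : ℝ) ^ 2 ≤ 200 * X := by exact_mod_cast h1
    refine abs_le_of_sq_le_sq' ?_ (by linarith) |>.2
    rw [mul_pow, hs2]
    linarith
  have hc2 : (c : ℝ) ≤ 3 * s := by
    have h1 : c ^ 2 ≤ 8 * X := by
      rw [hc]
      exact Nat.sqrt_le' _
    have h2 : (c : ℝ) ^ 2 ≤ 8 * X := by exact_mod_cast h1
    refine abs_le_of_sq_le_sq' ?_ (by linarith) |>.2
    rw [mul_pow, hs2]
    linarith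
  have hbc : (b : ℝ) ≤ 3 * s / Z := by
    rw [le_div_iff₀ hZr]
    have h1 : b * Z ≤ c := by
      rw [hb]
      exact Nat.div_mul_le_self _ _
    have h2 : (b : ℝ) * Z ≤ c := by exact_mod_cast h1
    linarith
  have hb0 : (0 : ℝ) ≤ b := by positivity
  have ha0 : (0 : ℝ) ≤ a := by positivity
  calc (T.card : ℝ) ≤ (2 * a + 1) * (2 * b * 18) := hcardR
    _ ≤ (31 * s) * (2 * (3 * s / Z) * 18) := by
        refine mul_le_mul (by linarith) (by linarith) (by positivity) (by positivity)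
    _ = 3348 * s ^ 2 / Z := by ring
    _ = 3348 * X / Z := by rw [hs2]
    _ ≤ 4000 * X / Z := by gcongr; norm_num

end Pool.Agent.helper27.TD
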